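import Pool.Agent.Helper65.LK.Ex
import Pool.Agent.Helper65.LK.Dia

/-!
# Colourings of diagrams by reflections: definitions and basic facts

A colour is a linear involution `a` of `R^3` such that `a - 1` has rank at most one.  Colours do not
change along an arc; when a strand passes under a strand of colour `a` its colour `b` changes to
`a * b * a`.
-/

namespace Pool.Agent.Helper65.LK

open Function

variable {V W : Type}

/-- the linear maps of `R^3` -/
abbrev GG : Type := Module.End ℝ (Fin 3 → ℝ)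

/-- the image of `a - 1` -/
def im (a : GG) : Submodule ℝ (Fin 3 → ℝ) := LinearMap.range (a - 1)

/-- a reflection (or the identity) -/
structure IsRefl (a : GG) : Prop where
  sq : a * a = 1
  rank : Module.finrank ℝ (im a) ≤ 1

/-- The condition at a vertex with the state `q`; `a i` is the colour of the dart `i`. -/
def VCol (q : St) (a : ZMod 4 → GG) : Prop :=
  ∀ i, a (q.mate i) = if q.isX = true ∧ q.upper i = false then a (i + 1) * a i * a (i + 1) else a i

/-- a colouring of a diagram -/
structure Col (S : Shadow V) (s : V → St) (c : Dart V → GG) : Prop where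
  refl : ∀ x, IsRefl (c x)
  edge : ∀ x, c (S.α x) = c x
  vert : ∀ v, VCol (s v) (fun i => c (v, i))

/-- There is a colouring whose colours generate a group without proper invariant subspace of the
form: sum of the images of `a - 1`. -/
def Rich {V : Type} (S : Shadow V) (s : V → St) : Prop :=
  ∃ c, Col S s c ∧ ∀ U : Submodule ℝ (Fin 3 → ℝ), (∀ x, im (c x) ≤ U) → U = ⊤

/-- a colouring of a tangle -/
structure TCol (T : Tangle V) (s : V → St) (c : Dart V → GG) : Prop where
  refl : ∀ x, IsRefl (c x)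
  link : ∀ x y, T.link x = Sum.inl y → c x = c y
  vert : ∀ v, VCol (s v) (fun i => c (v, i))

/-- A one-parameter family of reflections in a dihedral group, with period one. -/
structure Fam (r : ℝ → GG) : Prop where
  refl : ∀ t, IsRefl (r t)
  per : ∀ t, r (t + 1) = r t
  conj : ∀ a b, r a * r b * r a = r (2 * a - b)

/-- the reflections `a` and `b` are at the positions `0` and `1 / q` of a family -/
def RelQ (q : ℕ) (a b : GG) : Prop := ∃ r, Fam r ∧ r 0 = a ∧ r (1 / q) = b

theorem isRefl_one : IsRefl 1 := by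
  refine ⟨by simp, ?_⟩
  have : im 1 = ⊥ := by
    unfold im
    rw [sub_self]
    exact LinearMap.range_zero
  rw [this, finrank_bot]
  exact Nat.zero_le _

/-- `a` maps `U` to itself if `im a ≤ U` -/
theorem im_apply {a : GG} {U : Submodule ℝ (Fin 3 → ℝ)} (h : im a ≤ U) {w : Fin 3 → ℝ}
    (hw : w ∈ U) : a w ∈ U := by
  have h1 : (a - 1) w ∈ U := h ⟨w, rfl⟩
  have h2 : a w = (a - 1) w + w := by simp
  rw [h2]
  exact U.add_mem h1 hw

theorem conj_sub {a b : GG} (ha : a * a = 1) : a * b * a - 1 = a * (b - 1) * a := by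
  rw [mul_sub, sub_mul, mul_one, ha]

theorem im_conj {a b : GG} (ha : a * a = 1) {U : Submodule ℝ (Fin 3 → ℝ)} (h1 : im a ≤ U)
    (h2 : im b ≤ U) : im (a * b * a) ≤ U := by
  rintro _ ⟨w, rfl⟩
  rw [conj_sub ha]
  exact im_apply h1 (h2 ⟨a w, rfl⟩)

theorem IsRefl.conj {a b : GG} (ha : IsRefl a) (hb : IsRefl b) : IsRefl (a * b * a) := by
  refine ⟨?_, ?_⟩
  · calc a * b * a * (a * b * a) = a * b * (a * a) * b * a := by noncomm_ring
      _ = 1 := by rw [ha.sq, mul_one, mul_assoc a b b, hb.sq, mul_one, ha.sq]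
  · have h1 : im (a * b * a) ≤ (im b).map a := by
      rintro _ ⟨w, rfl⟩
      rw [conj_sub ha.sq]
      exact ⟨(b - 1) (a w), ⟨a w, rfl⟩, rfl⟩
    exact (Submodule.finrank_mono h1).trans ((Submodule.finrank_map_le a (im b)).trans hb.rank)

theorem IsRefl.cancel {a b : GG} (ha : a * a = 1) : a * (a * b * a) * a = b := by
  calc a * (a * b * a) * a = (a * a) * b * (a * a) := by noncomm_ring
    _ = b := by rw [ha, one_mul, mul_one]

theorem IsRefl.conj_self {a : GG} (ha : a * a = 1) : a * a * a = a := by rw [ha, one_mul]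

theorem IsRefl.conj_eq {a b c : GG} (ha : a * a = 1) : c = a * b * a ↔ b = a * c * a := by
  constructor
  · rintro rfl
    exact (IsRefl.cancel ha).symm
  · rintro rfl
    exact (IsRefl.cancel ha).symm

theorem vcol_const (q : St) {a : GG} (ha : IsRefl a) : VCol q (fun _ => a) := by
  intro i
  split_ifs
  · exact (IsRefl.conj_self ha.sq).symm
  · rfl

theorem VCol.smooth {q : St} {a : ZMod 4 → GG} (h : VCol q a) (hq : q.isX = false) (i : ZMod 4) :
    a (q.mate i) = a i := by
  rw [h i, if_neg]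
  rintro ⟨h1, -⟩
  rw [hq] at h1
  exact absurd h1 (by decide)

theorem VCol.up {q : St} {a : ZMod 4 → GG} (h : VCol q a) (hq : q.isX = true) (i : ZMod 4)
    (hi : q.upper i = true) : a (i + 2) = a i := by
  have h1 := h i
  have h2 : q.mate i = i + 2 := by
    cases q
    · rfl
    · rfl
    · exact absurd hq (by decide)
    · exact absurd hq (by decide)
  rw [h2, if_neg] at h1
  · exact h1
  · rintro ⟨-, h3⟩
    rw [hi] at h3
    exact absurd h3 (by decide)

theorem VCol.low {q : St} {a : ZMod 4 → GG} (h : VCol q a) (hq : q.isX = true) (i : ZMod 4)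
    (hi : q.upper i = false) : a (i + 2) = a (i + 1) * a i * a (i + 1) := by
  have h1 := h i
  have h2 : q.mate i = i + 2 := by
    cases q
    · rfl
    · rfl
    · exact absurd hq (by decide)
    · exact absurd hq (by decide)
  rw [h2, if_pos ⟨hq, hi⟩] at h1
  exact h1

theorem upper_add {q : St} (hq : q.isX = true) (i : ZMod 4) :
    q.upper (i + 1) = (!q.upper i) ∧ q.upper (i + 2) = q.upper i ∧ q.upper (i + 3) = (!q.upper i) := by
  revert i
  cases q
  · decide
  · decide
  · exact absurd hq (by decide)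
  · exact absurd hq (by decide)

theorem mate_isX {q : St} (hq : q.isX = true) (i : ZMod 4) : q.mate i = i + 2 := by
  cases q
  · rfl
  · rfl
  · exact absurd hq (by decide)
  · exact absurd hq (by decide)

theorem zmod4_cases (i j : ZMod 4) : j = i ∨ j = i + 1 ∨ j = i + 2 ∨ j = i + 3 := by
  revert i j
  decide

theorem zmod4_add (i : ZMod 4) : i + 1 + 1 = i + 2 ∧ i + 1 + 2 = i + 3 ∧ i + 2 + 2 = i ∧
    i + 3 + 2 = i + 1 ∧ i + 3 + 1 = i := by
  revert i
  decide

/-- for a crossing it suffices to know that the two upper colours agree, and one relation -/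
theorem vcol_of {q : St} {a : ZMod 4 → GG} (hq : q.isX = true) (i : ZMod 4)
    (hi : q.upper i = true) (hr : IsRefl (a i)) (h1 : a (i + 2) = a i)
    (h2 : a (i + 3) = a i * a (i + 1) * a i) : VCol q a := by
  obtain ⟨u1, u2, u3⟩ := upper_add hq i
  obtain ⟨z1, z2, z3, z4, z5⟩ := zmod4_add i
  intro j
  rw [mate_isX hq]
  rcases zmod4_cases i j with rfl | rfl | rfl | rfl
  · rw [if_neg (by rw [hi]; simp), h1]
  · rw [if_pos ⟨hq, by rw [u1, hi]; rfl⟩, z1, z2, h1, h2]
  · rw [if_neg (by rw [u2, hi]; simp), z3, h1]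
  · rw [if_pos ⟨hq, by rw [u3, hi]; rfl⟩, z4, z5, h2]
    exact (IsRefl.cancel hr.sq).symm

/-- the four darts of an arc have the same colour -/
theorem Col.arc {S : Shadow V} {s : V → St} {c : Dart V → GG} (h : Col S s c) {x y : Dart V}
    (hxy : Arc S s x y) : c x = c y := by
  induction hxy with
  | rel x y hxy =>
    rcases hxy with rfl | ⟨h1, rfl⟩
    · exact (h.edge x).symm
    · have h2 : (s x.1).isX = false := by
        unfold isC at h1
        simpa using h1
      exact ((h.vert x.1).smooth h2 x.2).symm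
  | refl x => rfl
  | symm x y _ ih => exact ih.symm
  | trans x y z _ _ ih1 ih2 => exact ih1.trans ih2

/-- a constant colouring -/
theorem col_const (S : Shadow V) (s : V → St) {a : GG} (ha : IsRefl a) : Col S s (fun _ => a) :=
  ⟨fun _ => ha, fun _ => rfl, fun v => vcol_const (s v) ha⟩

theorem tcol_const (T : Tangle V) (s : V → St) {a : GG} (ha : IsRefl a) :
    TCol T s (fun _ => a) :=
  ⟨fun _ => ha, fun _ _ _ => rfl, fun v => vcol_const (s v) ha⟩

/-- the transport of richness -/
theorem Rich.of {V' : Type} {S : Shadow V} {s : V → St} {S' : Shadow V'} {s' : V' → St}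
    (h : ∀ c, Col S s c → ∃ c', Col S' s' c' ∧
      ∀ U : Submodule ℝ (Fin 3 → ℝ), (∀ x, im (c' x) ≤ U) → ∀ x, im (c x) ≤ U)
    (hr : Rich S s) : Rich S' s' := by
  obtain ⟨c, hc, hU⟩ := hr
  obtain ⟨c', hc', h2⟩ := h c hc
  exact ⟨c', hc', fun U hU' => hU U (h2 U hU')⟩

theorem Fam.per_int {r : ℝ → GG} (h : Fam r) (m : ℤ) (t : ℝ) : r (t + m) = r t := by
  induction m using Int.induction_on with
  | zero => simp
  | succ n ih =>
    have : t + ((n : ℤ) + 1 : ℤ) = (t + (n : ℤ)) + 1 := by push_cast; ring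
    rw [this, h.per, ih]
  | pred n ih =>
    have : t + (-(n : ℤ) : ℤ) = (t + (-(n : ℤ) - 1 : ℤ)) + 1 := by push_cast; ring
    rw [this, h.per] at ih
    exact ih

theorem fam_const {a : GG} (ha : IsRefl a) : Fam (fun _ => a) :=
  ⟨fun _ => ha, fun _ => rfl, fun _ _ => IsRefl.conj_self ha.sq⟩

theorem relQ_refl (q : ℕ) {a : GG} (ha : IsRefl a) : RelQ q a a :=
  ⟨fun _ => a, fam_const ha, rfl, rfl⟩

theorem RelQ.symm {q : ℕ} {a b : GG} (h : RelQ q a b) : RelQ q b a := by
  obtain ⟨r, hr, h1, h2⟩ := h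
  refine ⟨fun t => r (1 / q - t), ⟨fun t => hr.refl _, fun t => ?_, fun x y => ?_⟩, ?_, ?_⟩
  · show r (1 / q - (t + 1)) = r (1 / q - t)
    have h3 : (1 / q - t : ℝ) = (1 / q - (t + 1)) + 1 := by ring
    rw [h3, hr.per]
  · show r (1 / q - x) * r (1 / q - y) * r (1 / q - x) = r (1 / q - (2 * x - y))
    rw [hr.conj]
    congr 1
    ring
  · show r (1 / q - 0) = b
    rw [sub_zero, h2]
  · show r (1 / q - 1 / q) = a
    rw [sub_self, h1]

theorem RelQ.left {q : ℕ} {a b : GG} (h : RelQ q a b) : IsRefl a := by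
  obtain ⟨r, hr, rfl, -⟩ := h
  exact hr.refl _

theorem RelQ.right {q : ℕ} {a b : GG} (h : RelQ q a b) : IsRefl b := by
  obtain ⟨r, hr, -, rfl⟩ := h
  exact hr.refl _

end Pool.Agent.Helper65.LK
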