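import Pool.Agent.Helper93.LKC.Col
import Pool.Agent.Helper65.LK.Move3

/-!
# CB-4. Richness is invariant under the second Reidemeister move

Let `s' = update (update s v (St.turn i)) w (St.turn j)`.  `St.turn i` joins the darts `i + 1, i + 2` and the darts
`i + 3, i`.  The arcs `P` of `(v, i)` and `P'` of `(v, i + 1)` in `(S, s)` have exactly the crossing darts `(v, i), (w, j + 1)`
and `(v, i + 1), (w, j)` (`partner_spec` with `U = Cr s`: an arc has at most two crossing darts), they are different.
In `(S, s')` we have, since `Arc S s ≤ Arc S s'` (`r3_arc_mono`), two arcs: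
`(v, i + 2) - (v, i + 1) - (w, j) - (w, j + 3)` and `(v, i + 3) - (v, i) - (w, j + 1) - (w, j + 2)`.
(a) Let `c` be a colouring of `(S, s)`, `a = c (v, i) = c (w, j + 1)`, `b = c (v, i + 1) = c (w, j)`.
Case 1: `upper (v, i) = true`: `c (v, i + 2) = a`, `c (v, i + 3) = a * b * a`, `c (w, j + 3) = a`, `c (w, j + 2) = a * b * a`
(because `upper (w, j + 1) = true`).  Put `c' x = a * b * a` if `Arc S s (v, i) x`, `c' x = a` if `Arc S s (v, i + 1) x`, `c' x = c x`
otherwise.  Case 2: `upper (v, i) = false`: `c (v, i + 3) = b`, `c (v, i + 2) = b * a * b`, `c (w, j + 2) = b`, `c (w, j + 3) = b * a * b`;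
put `c' x = b` if `Arc S s (v, i) x` and `c' x = b * a * b` if `Arc S s (v, i + 1) x`.
`c'` is constant on the arcs of `(S, s)`, in particular on edges and at the vertices which are smoothed in `s`; at the
crossings different from `v, w` it agrees with `c`.  The colours of `c` are in every `U` which contains the
images for `c'`: `a, a * b * a` (or `b, b * a * b`) are colours of `c'`, and `b = a * (a * b * a) * a`: `im_conj`.
(b) Let `c'` be a colouring of `(S, s')`: put `a' = c' (v, i + 1) = c' (v, i + 2) = c' (w, j) = c' (w, j + 3)` and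
`b' = c' (v, i) = c' (v, i + 3) = c' (w, j + 1) = c' (w, j + 2)`.  Case 1: `c x = a'` if `Arc S s (v, i) x`,
`c x = a' * b' * a'` if `Arc S s (v, i + 1) x`, `c x = c' x` otherwise.  Case 2: `c x = b' * a' * b'` if
`Arc S s (v, i) x`, `c x = b'` if `Arc S s (v, i + 1) x`, `c x = c' x` otherwise.  All colours of `c'` except `b'`, `a'` on the
two arcs are colours of `c`, and these two are colours of `c` at `(v, i + 2)`, `(v, i + 3)`.
At a crossing use `vcol_of` (with `i` or `i + 1` the upper dart).
-/

namespace Pool.Agent.Helper65.LK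

open Function

open Classical in
/-- the colours `p`, `q` on two arcs -/
noncomputable def r2mod {V : Type} (S : Shadow V) (s : V → St) (x₀ y₀ : Dart V) (p q : GG)
    (c : Dart V → GG) (x : Dart V) : GG :=
  if Arc S s x₀ x then p else if Arc S s y₀ x then q else c x

/-- the data of the second Reidemeister move -/
structure R2D {V : Type} (S : Shadow V) (s : V → St) (v w : V) (i j : ZMod 4) : Prop where
  ne : v ≠ w
  hv : (s v).isX = true
  hw : (s w).isX = true
  h1 : Arc S s (v, i) (w, j + 1)
  h2 : Arc S s (v, i + 1) (w, j)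

section R2

variable {V : Type} {S : Shadow V} {s : V → St} {v w : V} {i j : ZMod 4}

theorem r2_end1 [Fintype V] (D : R2D S s v w i j) (u : V) (k : ZMod 4) (hu : (s u).isX = true)
    (h : Arc S s (v, i) (u, k)) : (u, k) = (v, i) ∨ (u, k) = (w, j + 1) := by
  obtain ⟨-, -, -, h4⟩ := partner_spec (Cr s) S s (v, i) D.hv
  have h5 := h4 (w, j + 1) D.hw D.h1
  have h6 : (w, j + 1) ≠ (v, i) := by
    intro h7
    exact D.ne (congrArg Prod.fst h7).symm
  have h7 := h5.resolve_left h6
  rcases h4 (u, k) hu h with h8 | h8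
  · exact Or.inl h8
  · right
    rw [h8, h7]

theorem r2_end2 [Fintype V] (D : R2D S s v w i j) (u : V) (k : ZMod 4) (hu : (s u).isX = true)
    (h : Arc S s (v, i + 1) (u, k)) : (u, k) = (v, i + 1) ∨ (u, k) = (w, j) := by
  obtain ⟨-, -, -, h4⟩ := partner_spec (Cr s) S s (v, i + 1) D.hv
  have h5 := h4 (w, j) D.hw D.h2
  have h6 : (w, j) ≠ (v, i + 1) := by
    intro h7
    exact D.ne (congrArg Prod.fst h7).symm
  have h7 := h5.resolve_left h6
  rcases h4 (u, k) hu h with h8 | h8
  · exact Or.inl h8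
  · right
    rw [h8, h7]

private theorem r2_z1 : ∀ i : ZMod 4, i + 1 ≠ i ∧ i + 2 ≠ i ∧ i + 3 ≠ i ∧ i ≠ i + 1 ∧
    i + 2 ≠ i + 1 ∧ i + 3 ≠ i + 1 := by decide

private theorem r2_turn (i : ZMod 4) : (St.turn i).mate i = i + 3 ∧
    (St.turn i).mate (i + 1) = i + 2 ∧ (St.turn i).mate (i + 2) = i + 1 ∧
    (St.turn i).mate (i + 3) = i ∧ (St.turn i).isX = false := by
  revert i
  decide

theorem vcol_turn (i : ZMod 4) {a : ZMod 4 → GG} (h1 : a (i + 3) = a i)
    (h2 : a (i + 1) = a (i + 2)) : VCol (St.turn i) a := by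
  obtain ⟨m0, m1, m2, m3, m4⟩ := r2_turn i
  intro k
  rw [m4, if_neg (by simp)]
  rcases zmod4_cases i k with rfl | rfl | rfl | rfl
  · rw [m0, h1]
  · rw [m1, h2]
  · rw [m2, h2]
  · rw [m3, h1]

theorem r2mod_p (p q : GG) (c : Dart V → GG) {x : Dart V} (h : Arc S s (v, i) x) :
    r2mod S s (v, i) (v, i + 1) p q c x = p := by
  unfold r2mod
  rw [if_pos h]

theorem r2mod_q [Fintype V] (D : R2D S s v w i j) (p q : GG) (c : Dart V → GG) {x : Dart V}
    (h : Arc S s (v, i + 1) x) : r2mod S s (v, i) (v, i + 1) p q c x = q := by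
  unfold r2mod
  rw [if_neg, if_pos h]
  intro h1
  have h2 : Arc S s (v, i) (v, i + 1) := Relation.EqvGen.trans _ _ _ h1
    (Relation.EqvGen.symm _ _ h)
  rcases r2_end1 D v (i + 1) D.hv h2 with h3 | h3
  · exact (r2_z1 i).1 (congrArg Prod.snd h3)
  · exact D.ne (congrArg Prod.fst h3)

theorem r2mod_c (p q : GG) (c : Dart V → GG) {x : Dart V} (h : ¬ Arc S s (v, i) x)
    (h' : ¬ Arc S s (v, i + 1) x) : r2mod S s (v, i) (v, i + 1) p q c x = c x := by
  unfold r2mod
  rw [if_neg h, if_neg h']

/-- the value at a crossing dart which is not one of the four ends -/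
theorem r2mod_cr [Fintype V] (D : R2D S s v w i j) (p q : GG) (c : Dart V → GG) (u : V)
    (k : ZMod 4) (hu : (s u).isX = true) (n1 : (u, k) ≠ (v, i)) (n2 : (u, k) ≠ (w, j + 1))
    (n3 : (u, k) ≠ (v, i + 1)) (n4 : (u, k) ≠ (w, j)) :
    r2mod S s (v, i) (v, i + 1) p q c (u, k) = c (u, k) := by
  refine r2mod_c p q c ?_ ?_
  · intro h
    rcases r2_end1 D u k hu h with h1 | h1
    · exact n1 h1
    · exact n2 h1
  · intro h
    rcases r2_end2 D u k hu h with h1 | h1
    · exact n3 h1
    · exact n4 h1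

/-- the eight values at the two crossings -/
theorem r2mod_vals [Fintype V] (D : R2D S s v w i j) (p q : GG) (c : Dart V → GG) :
    r2mod S s (v, i) (v, i + 1) p q c (v, i) = p ∧
    r2mod S s (v, i) (v, i + 1) p q c (v, i + 1) = q ∧
    r2mod S s (v, i) (v, i + 1) p q c (v, i + 2) = c (v, i + 2) ∧
    r2mod S s (v, i) (v, i + 1) p q c (v, i + 3) = c (v, i + 3) ∧
    r2mod S s (v, i) (v, i + 1) p q c (w, j) = q ∧
    r2mod S s (v, i) (v, i + 1) p q c (w, j + 1) = p ∧
    r2mod S s (v, i) (v, i + 1) p q c (w, j + 2) = c (w, j + 2) ∧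
    r2mod S s (v, i) (v, i + 1) p q c (w, j + 3) = c (w, j + 3) := by
  have hvw : ∀ k l : ZMod 4, (v, k) ≠ (w, l) := fun k l h => D.ne (congrArg Prod.fst h)
  have hwv : ∀ k l : ZMod 4, (w, k) ≠ (v, l) := fun k l h => D.ne (congrArg Prod.fst h).symm
  have hs : ∀ (u : V) (k l : ZMod 4), k ≠ l → (u, k) ≠ (u, l) :=
    fun u k l hkl h => hkl (congrArg Prod.snd h)
  obtain ⟨a1, a2, a3, a4, a5, a6⟩ := r2_z1 i
  obtain ⟨b1, b2, b3, b4, b5, b6⟩ := r2_z1 j
  refine ⟨r2mod_p p q c (Relation.EqvGen.refl _), r2mod_q D p q c (Relation.EqvGen.refl _),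
    ?_, ?_, r2mod_q D p q c D.h2, r2mod_p p q c D.h1, ?_, ?_⟩
  · exact r2mod_cr D p q c v (i + 2) D.hv (hs _ _ _ a2) (hvw _ _) (hs _ _ _ a5) (hvw _ _)
  · exact r2mod_cr D p q c v (i + 3) D.hv (hs _ _ _ a3) (hvw _ _) (hs _ _ _ a6) (hvw _ _)
  · exact r2mod_cr D p q c w (j + 2) D.hw (hwv _ _) (hs _ _ _ b5) (hwv _ _) (hs _ _ _ b2)
  · exact r2mod_cr D p q c w (j + 3) D.hw (hwv _ _) (hs _ _ _ b6) (hwv _ _) (hs _ _ _ b3)

theorem r2mod_arc (p q : GG) {c : Dart V → GG} (hc : ∀ x y, Arc S s x y → c x = c y)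
    {x y : Dart V} (h : Arc S s x y) :
    r2mod S s (v, i) (v, i + 1) p q c x = r2mod S s (v, i) (v, i + 1) p q c y := by
  have e : ∀ z : Dart V, Arc S s z x ↔ Arc S s z y := fun z =>
    ⟨fun h1 => Relation.EqvGen.trans _ _ _ h1 h,
      fun h1 => Relation.EqvGen.trans _ _ _ h1 (Relation.EqvGen.symm _ _ h)⟩
  unfold r2mod
  by_cases h1 : Arc S s (v, i) x
  · rw [if_pos h1, if_pos ((e _).1 h1)]
  · rw [if_neg h1, if_neg (fun h2 => h1 ((e _).2 h2))]
    by_cases h3 : Arc S s (v, i + 1) x
    · rw [if_pos h3, if_pos ((e _).1 h3)]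
    · rw [if_neg h3, if_neg (fun h2 => h3 ((e _).2 h2)), hc x y h]

/-- the modified function is a colouring -/
theorem r2mod_col [Fintype V] (D : R2D S s v w i j) {t t' : V → St} {p q : GG}
    {c : Dart V → GG} (hc : Col S t c) (hp : IsRefl p) (hq : IsRefl q)
    (ha : ∀ x y, Arc S s x y → c x = c y)
    (ht : ∀ u, u ≠ v → u ≠ w → t u = s u) (ht' : ∀ u, u ≠ v → u ≠ w → t' u = s u)
    (hv : VCol (t' v) (fun k => r2mod S s (v, i) (v, i + 1) p q c (v, k)))
    (hw : VCol (t' w) (fun k => r2mod S s (v, i) (v, i + 1) p q c (w, k))) :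
    Col S t' (r2mod S s (v, i) (v, i + 1) p q c) := by
  refine ⟨fun x => ?_, fun x => ?_, fun u => ?_⟩
  · unfold r2mod
    split_ifs
    · exact hp
    · exact hq
    · exact hc.refl x
  · exact r2mod_arc p q ha (Relation.EqvGen.symm _ _ (Relation.EqvGen.rel _ _ (Or.inl rfl)))
  · by_cases h1 : u = v
    · rw [h1]
      exact hv
    · by_cases h2 : u = w
      · rw [h2]
        exact hw
      · rw [ht' u h1 h2]
        by_cases h3 : (s u).isX = true
        · have h4 : (fun k => r2mod S s (v, i) (v, i + 1) p q c (u, k)) =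
              fun k => c (u, k) := by
            funext k
            exact r2mod_cr D p q c u k h3 (fun h => h1 (congrArg Prod.fst h))
              (fun h => h2 (congrArg Prod.fst h)) (fun h => h1 (congrArg Prod.fst h))
              (fun h => h2 (congrArg Prod.fst h))
          rw [h4, ← ht u h1 h2]
          exact hc.vert u
        · intro k
          rw [if_neg (fun h => h3 h.1)]
          refine r2mod_arc p q ha (Relation.EqvGen.symm _ _ (Relation.EqvGen.rel _ _
            (Or.inr ⟨h3, rfl⟩)))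

end R2

theorem rich_r2 {V : Type} [Fintype V] [DecidableEq V] {S : Shadow V} {s : V → St} {v w : V}
    {i j : ZMod 4} (hvw : v ≠ w) (hv : (s v).isX = true) (hw : (s w).isX = true)
    (h1 : Arc S s (v, i) (w, j + 1)) (h2 : Arc S s (v, i + 1) (w, j))
    (hup : (s v).upper i = (s w).upper (j + 1)) :
    Rich S s ↔ Rich S (update (update s v (St.turn i)) w (St.turn j)) := by
  have D : R2D S s v w i j := ⟨hvw, hv, hw, h1, h2⟩
  set s' := update (update s v (St.turn i)) w (St.turn j) with hs'
  have hs'v : s' v = St.turn i := by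
    rw [hs', update_of_ne hvw, update_self]
  have hs'w : s' w = St.turn j := by
    rw [hs', update_self]
  have hs'u : ∀ u, u ≠ v → u ≠ w → s' u = s u := by
    intro u h3 h4
    rw [hs', update_of_ne h4, update_of_ne h3]
  obtain ⟨zi1, zi2, zi3, zi4, zi5⟩ := zmod4_add i
  obtain ⟨zj1, zj2, zj3, zj4, zj5⟩ := zmod4_add j
  obtain ⟨uv1, uv2, uv3⟩ := upper_add hv i
  obtain ⟨uw1, uw2, uw3⟩ := upper_add hw j
  constructor
  · refine Rich.of fun c hc => ?_
    have ha : ∀ x y, Arc S s x y → c x = c y := fun x y h => hc.arc h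
    have ea := ha _ _ h1
    have eb := ha _ _ h2
    have ra := hc.refl (v, i)
    have rb := hc.refl (v, i + 1)
    rcases hu : (s v).upper i with _ | _
    · -- the strand of `b` is the upper one
      have hu1 : (s v).upper (i + 1) = true := by rw [uv1, hu]; rfl
      have hw1 : (s w).upper (j + 1) = false := by rw [← hup, hu]
      have hw0 : (s w).upper j = true := by
        rw [uw1] at hw1
        simpa using hw1
      have c3 : c (v, i + 3) = c (v, i + 1) := by
        have h3 := (hc.vert v).up hv (i + 1) hu1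
        rwa [zi2] at h3
      have c2 : c (v, i + 2) = c (v, i + 1) * c (v, i) * c (v, i + 1) :=
        (hc.vert v).low hv i hu
      have d2 : c (w, j + 2) = c (v, i + 1) := by
        have h3 := (hc.vert w).up hw j hw0
        rw [eb]
        exact h3
      have d3 : c (w, j + 3) = c (v, i + 1) * c (v, i) * c (v, i + 1) := by
        have h3 := (hc.vert w).low hw (j + 1) hw1
        rw [zj2, zj1, d2, ← ea] at h3
        exact h3
      refine ⟨r2mod S s (v, i) (v, i + 1) (c (v, i + 1)) (c (v, i + 1) * c (v, i) * c (v, i + 1))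
        c, ?_, ?_⟩
      · obtain ⟨m1, m2, m3, m4, m5, m6, m7, m8⟩ := r2mod_vals D (c (v, i + 1))
          (c (v, i + 1) * c (v, i) * c (v, i + 1)) c
        refine r2mod_col D hc rb (rb.conj ra) ha (fun u _ _ => rfl) hs'u ?_ ?_
        · rw [hs'v]
          refine vcol_turn i ?_ ?_
          · show r2mod S s (v, i) (v, i + 1) _ _ c (v, i + 3) = r2mod S s (v, i) (v, i + 1) _ _ c (v, i)
            rw [m4, m1, c3]
          · show r2mod S s (v, i) (v, i + 1) _ _ c (v, i + 1) =
              r2mod S s (v, i) (v, i + 1) _ _ c (v, i + 2)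
            rw [m2, m3, c2]
        · rw [hs'w]
          refine vcol_turn j ?_ ?_
          · show r2mod S s (v, i) (v, i + 1) _ _ c (w, j + 3) = r2mod S s (v, i) (v, i + 1) _ _ c (w, j)
            rw [m8, m5, d3]
          · show r2mod S s (v, i) (v, i + 1) _ _ c (w, j + 1) =
              r2mod S s (v, i) (v, i + 1) _ _ c (w, j + 2)
            rw [m6, m7, d2]
      · intro U hU x
        have i1 : im (c (v, i + 1)) ≤ U := by
          have h3 := hU (v, i)
          rwa [r2mod_p _ _ _ (Relation.EqvGen.refl _)] at h3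
        have i2 : im (c (v, i)) ≤ U := by
          have h3 := hU (v, i + 1)
          rw [r2mod_q D _ _ _ (Relation.EqvGen.refl _)] at h3
          have h4 := im_conj rb.sq i1 h3
          rwa [IsRefl.cancel rb.sq] at h4
        by_cases hx1 : Arc S s (v, i) x
        · rw [← ha _ _ hx1]
          exact i2
        · by_cases hx2 : Arc S s (v, i + 1) x
          · rw [← ha _ _ hx2]
            exact i1
          · have h3 := hU x
            rwa [r2mod_c _ _ _ hx1 hx2] at h3
    · -- the strand of `a` is the upper one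
      have hw1 : (s w).upper (j + 1) = true := by rw [← hup, hu]
      have hu1 : (s v).upper (i + 1) = false := by rw [uv1, hu]; rfl
      have hw0 : (s w).upper j = false := by
        rw [uw1] at hw1
        simpa using hw1
      have c2 : c (v, i + 2) = c (v, i) := (hc.vert v).up hv i hu
      have c3 : c (v, i + 3) = c (v, i) * c (v, i + 1) * c (v, i) := by
        have h3 := (hc.vert v).low hv (i + 1) hu1
        rw [zi2, zi1, c2] at h3
        exact h3
      have d3 : c (w, j + 3) = c (v, i) := by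
        have h3 := (hc.vert w).up hw (j + 1) hw1
        rw [zj2, ← ea] at h3
        exact h3
      have d2 : c (w, j + 2) = c (v, i) * c (v, i + 1) * c (v, i) := by
        have h3 := (hc.vert w).low hw j hw0
        rw [← ea, ← eb] at h3
        exact h3
      refine ⟨r2mod S s (v, i) (v, i + 1) (c (v, i) * c (v, i + 1) * c (v, i)) (c (v, i)) c,
        ?_, ?_⟩
      · obtain ⟨m1, m2, m3, m4, m5, m6, m7, m8⟩ := r2mod_vals D
          (c (v, i) * c (v, i + 1) * c (v, i)) (c (v, i)) c
        refine r2mod_col D hc (ra.conj rb) ra ha (fun u _ _ => rfl) hs'u ?_ ?_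
        · rw [hs'v]
          refine vcol_turn i ?_ ?_
          · show r2mod S s (v, i) (v, i + 1) _ _ c (v, i + 3) = r2mod S s (v, i) (v, i + 1) _ _ c (v, i)
            rw [m4, m1, c3]
          · show r2mod S s (v, i) (v, i + 1) _ _ c (v, i + 1) =
              r2mod S s (v, i) (v, i + 1) _ _ c (v, i + 2)
            rw [m2, m3, c2]
        · rw [hs'w]
          refine vcol_turn j ?_ ?_
          · show r2mod S s (v, i) (v, i + 1) _ _ c (w, j + 3) = r2mod S s (v, i) (v, i + 1) _ _ c (w, j)
            rw [m8, m5, d3]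
          · show r2mod S s (v, i) (v, i + 1) _ _ c (w, j + 1) =
              r2mod S s (v, i) (v, i + 1) _ _ c (w, j + 2)
            rw [m6, m7, d2]
      · intro U hU x
        have i1 : im (c (v, i)) ≤ U := by
          have h3 := hU (v, i + 1)
          rwa [r2mod_q D _ _ _ (Relation.EqvGen.refl _)] at h3
        have i2 : im (c (v, i + 1)) ≤ U := by
          have h3 := hU (v, i)
          rw [r2mod_p _ _ _ (Relation.EqvGen.refl _)] at h3
          have h4 := im_conj ra.sq i1 h3
          rwa [IsRefl.cancel ra.sq] at h4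
        by_cases hx1 : Arc S s (v, i) x
        · rw [← ha _ _ hx1]
          exact i1
        · by_cases hx2 : Arc S s (v, i + 1) x
          · rw [← ha _ _ hx2]
            exact i2
          · have h3 := hU x
            rwa [r2mod_c _ _ _ hx1 hx2] at h3
  · refine Rich.of fun c hc => ?_
    have hbelow : Below s' s := by
      refine r3_below_update (r3_below_update (fun _ _ => rfl) hv _) hw _
    have ha : ∀ x y, Arc S s x y → c x = c y := fun x y h => hc.arc (r3_arc_mono hbelow h)
    have ea := ha _ _ h1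
    have eb := ha _ _ h2
    obtain ⟨n0, n1, n2, n3, n4⟩ := r2_turn i
    obtain ⟨k0, k1, k2, k3, k4⟩ := r2_turn j
    have cv := hc.vert v
    have cw := hc.vert w
    rw [hs'v] at cv
    rw [hs'w] at cw
    -- `b' = c (v, i)`, `a' = c (v, i + 1)`
    have c3 : c (v, i + 3) = c (v, i) := by
      have h3 := cv.smooth n4 i
      rwa [n0] at h3
    have c2 : c (v, i + 2) = c (v, i + 1) := by
      have h3 := cv.smooth n4 (i + 1)
      rwa [n1] at h3
    have d3 : c (w, j + 3) = c (v, i + 1) := by
      have h3 := cw.smooth k4 j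
      rw [k0] at h3
      rw [eb]
      exact h3
    have d2 : c (w, j + 2) = c (v, i) := by
      have h3 := cw.smooth k4 (j + 1)
      rw [k1] at h3
      rw [ea]
      exact h3
    have rb := hc.refl (v, i)
    have ra := hc.refl (v, i + 1)
    have hfin : ∀ p q : GG, ∀ U : Submodule ℝ (Fin 3 → ℝ),
        (∀ x, im (r2mod S s (v, i) (v, i + 1) p q c x) ≤ U) → ∀ x, im (c x) ≤ U := by
      intro p q U hU x
      obtain ⟨m1, m2, m3, m4, m5, m6, m7, m8⟩ := r2mod_vals D p q c
      by_cases hx1 : Arc S s (v, i) x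
      · rw [← ha _ _ hx1, ← c3, ← m4]
        exact hU _
      · by_cases hx2 : Arc S s (v, i + 1) x
        · rw [← ha _ _ hx2, ← c2, ← m3]
          exact hU _
        · have h3 := hU x
          rwa [r2mod_c _ _ _ hx1 hx2] at h3
    rcases hu : (s v).upper i with _ | _
    · have hu1 : (s v).upper (i + 1) = true := by rw [uv1, hu]; rfl
      have hw1 : (s w).upper (j + 1) = false := by rw [← hup, hu]
      have hw0 : (s w).upper j = true := by
        rw [uw1] at hw1
        simpa using hw1
      refine ⟨r2mod S s (v, i) (v, i + 1) (c (v, i) * c (v, i + 1) * c (v, i)) (c (v, i)) c,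
        ?_, hfin _ _⟩
      obtain ⟨m1, m2, m3, m4, m5, m6, m7, m8⟩ := r2mod_vals D
        (c (v, i) * c (v, i + 1) * c (v, i)) (c (v, i)) c
      refine r2mod_col D hc (rb.conj ra) rb ha hs'u (fun u _ _ => rfl) ?_ ?_
      · refine vcol_of hv (i + 1) hu1 ?_ ?_ ?_
        · rw [m2]
          exact rb
        · rw [zi2, m4, m2, c3]
        · rw [show i + 1 + 3 = i by rw [add_right_comm]; exact zi5, zi1, m1, m2, m3, c2]
      · refine vcol_of hw j hw0 ?_ ?_ ?_
        · rw [m5]
          exact rb
        · rw [m7, m5, d2]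
        · rw [m8, m5, m6, IsRefl.cancel rb.sq, d3]
    · have hw1 : (s w).upper (j + 1) = true := by rw [← hup, hu]
      refine ⟨r2mod S s (v, i) (v, i + 1) (c (v, i + 1)) (c (v, i + 1) * c (v, i) * c (v, i + 1))
        c, ?_, hfin _ _⟩
      obtain ⟨m1, m2, m3, m4, m5, m6, m7, m8⟩ := r2mod_vals D (c (v, i + 1))
        (c (v, i + 1) * c (v, i) * c (v, i + 1)) c
      refine r2mod_col D hc ra (ra.conj rb) ha hs'u (fun u _ _ => rfl) ?_ ?_
      · refine vcol_of hv i hu ?_ ?_ ?_
        · rw [m1]
          exact ra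
        · rw [m3, m1, c2]
        · rw [m4, m1, m2, IsRefl.cancel ra.sq, c3]
      · refine vcol_of hw (j + 1) hw1 ?_ ?_ ?_
        · rw [m6]
          exact ra
        · rw [zj2, m8, m6, d3]
        · rw [show j + 1 + 3 = j by rw [add_right_comm]; exact zj5, zj1, m5, m6, m7, d2]

end Pool.Agent.Helper65.LK
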