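import Pool.Agent.Helper93.LKC.Col
import Pool.Agent.Helper65.LK.Tri

/-!
# CB-5. Richness is invariant under the third Reidemeister move

`π = tri u i v j w k`, `S' = S.conj π`.  By `Tri.conj`, `Tri.conj_conj`, `tri_add_two` the inverse move is of the same form
(for `u (i + 2) v (j + 2) w (k + 2)`; `upper` does not change if `2` is added), so it suffices to transport a colouring `c` of
`(S, s)` to `(S', s)` (`rich_r3_aux`).  Put `p = c (u, i) = c (w, k + 1)`, `q = c (v, j) = c (u, i + 1)`, `r = c (w, k) = c (v, j + 1)`.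
The arcs `A₁` of `(u, i + 1)`, `A₂` of `(v, j + 1)`, `A₃` of `(w, k + 1)` in `(S, s)` have the crossing darts
`{(u, i+1), (v, j)}`, `{(v, j+1), (w, k)}`, `{(w, k+1), (u, i)}` (`partner_spec`), so they are different.
New colouring: `c' (π x) = d x` where `d x = c x` if `x` is not on one of the three arcs, and `d` is constant
`q'`, `r'`, `p'` on `A₁`, `A₂`, `A₃`.
-/

namespace Pool.Agent.Helper65.LK

open Function

/-- the colours `x, y, x', y'` of the four darts at a crossing; `b` says that the first strand is above -/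
private def PC (b : Bool) (x y x' y' : GG) : Prop :=
  if b = true then x' = x ∧ y' = x * y * x else y' = y ∧ x' = y * x * y

private theorem vcol_pc {q : St} {a : ZMod 4 → GG} (h : VCol q a) (hq : q.isX = true) (i : ZMod 4)
    (hr : a (i + 1) * a (i + 1) = 1) :
    PC (q.upper i) (a i) (a (i + 1)) (a (i + 2)) (a (i + 3)) := by
  obtain ⟨u1, u2, u3⟩ := upper_add hq i
  obtain ⟨z1, z2, z3, z4, z5⟩ := zmod4_add i
  unfold PC
  by_cases hb : q.upper i = true
  · rw [if_pos hb]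
    refine ⟨h.up hq i hb, ?_⟩
    have h1 := h.low hq (i + 1) (by rw [u1, hb]; rfl)
    rw [z2, z1] at h1
    rw [h1, h.up hq i hb]
  · rw [if_neg hb]
    have hb' : q.upper i = false := by simpa using hb
    refine ⟨?_, h.low hq i hb'⟩
    have h1 := h.up hq (i + 1) (by rw [u1, hb']; rfl)
    rw [z2] at h1
    exact h1

private theorem pc_vcol {q : St} {a : ZMod 4 → GG} (hq : q.isX = true) (i : ZMod 4)
    (hr : ∀ j, IsRefl (a j)) (h : PC (q.upper i) (a i) (a (i + 1)) (a (i + 2)) (a (i + 3))) :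
    VCol q a := by
  obtain ⟨u1, u2, u3⟩ := upper_add hq i
  obtain ⟨z1, z2, z3, z4, z5⟩ := zmod4_add i
  unfold PC at h
  by_cases hb : q.upper i = true
  · rw [if_pos hb] at h
    exact vcol_of hq i hb (hr i) h.1 h.2
  · rw [if_neg hb] at h
    have hb' : q.upper i = false := by simpa using hb
    refine vcol_of hq (i + 1) (by rw [u1, hb']; rfl) (hr _) ?_ ?_
    · rw [z2]
      exact h.1
    · have z6 : ∀ i : ZMod 4, i + 1 + 3 = i := by decide
      rw [z1, z6 i]
      exact (IsRefl.conj_eq (hr (i + 1)).sq).1 h.2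

private theorem PC.refl {b : Bool} {x y x' y' : GG} (h : PC b x y x' y') (hx : IsRefl x)
    (hy : IsRefl y) : IsRefl x' ∧ IsRefl y' := by
  unfold PC at h
  by_cases hb : b = true
  · rw [if_pos hb] at h
    rw [h.1, h.2]
    exact ⟨hx, hx.conj hy⟩
  · rw [if_neg hb] at h
    rw [h.1, h.2]
    exact ⟨hy.conj hx, hy⟩

private theorem PC.back {b : Bool} {x y x' y' : GG} (h : PC b x y x' y') (hx : IsRefl x)
    (hy : IsRefl y) {U : Submodule ℝ (Fin 3 → ℝ)} (hx' : im x' ≤ U) (hy' : im y' ≤ U) :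
    im x ≤ U ∧ im y ≤ U := by
  unfold PC at h
  by_cases hb : b = true
  · rw [if_pos hb] at h
    have h1 : im x ≤ U := by rw [← h.1]; exact hx'
    refine ⟨h1, ?_⟩
    rw [(IsRefl.conj_eq hx.sq).1 h.2]
    exact im_conj hx.sq h1 hy'
  · rw [if_neg hb] at h
    have h1 : im y ≤ U := by rw [← h.1]; exact hy'
    refine ⟨?_, h1⟩
    rw [(IsRefl.conj_eq hy.sq).1 h.2]
    exact im_conj hy.sq h1 hx'

private theorem r3_alg {e1 e2 e3 : Bool} (h : ¬ (e1 = e2 ∧ e2 = e3)) {p q r pu qu qv rv rw_ pw : GG}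
    (hp : p * p = 1) (hq : q * q = 1) (hr : r * r = 1)
    (h1 : PC e1 p q pu qu) (h2 : PC e2 q r qv rv) (h3 : PC e3 r p rw_ pw) :
    ∃ p' q' r', PC e1 pw qv p' q' ∧ PC e2 qu rw_ q' r' ∧ PC e3 rv pu r' p' := by
  have hp' : ∀ x, p * (p * x) = x := fun x => by rw [← mul_assoc, hp, one_mul]
  have hq' : ∀ x, q * (q * x) = x := fun x => by rw [← mul_assoc, hq, one_mul]
  have hr' : ∀ x, r * (r * x) = x := fun x => by rw [← mul_assoc, hr, one_mul]
  cases e1 <;> cases e2 <;> cases e3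
  · exact absurd ⟨rfl, rfl⟩ h
  · simp only [PC, Bool.false_eq_true, if_false, if_true] at h1 h2 h3 ⊢
    obtain ⟨rfl, rfl⟩ := h1
    obtain ⟨rfl, rfl⟩ := h2
    obtain ⟨rfl, rfl⟩ := h3
    refine ⟨_, _, _, ⟨rfl, rfl⟩, ⟨rfl, ?_⟩, rfl, ?_⟩ <;>
      simp only [mul_assoc, hp, hq, hr, hp', hq', hr', mul_one]
  · simp only [PC, Bool.false_eq_true, if_false, if_true] at h1 h2 h3 ⊢
    obtain ⟨rfl, rfl⟩ := h1
    obtain ⟨rfl, rfl⟩ := h2
    obtain ⟨rfl, rfl⟩ := h3
    refine ⟨_, _, _, ⟨rfl, rfl⟩, ⟨?_, rfl⟩, ?_, ?_⟩ <;>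
      simp only [mul_assoc, hp, hq, hr, hp', hq', hr', mul_one]
  · simp only [PC, Bool.false_eq_true, if_false, if_true] at h1 h2 h3 ⊢
    obtain ⟨rfl, rfl⟩ := h1
    obtain ⟨rfl, rfl⟩ := h2
    obtain ⟨rfl, rfl⟩ := h3
    refine ⟨_, _, _, ⟨rfl, rfl⟩, ⟨?_, rfl⟩, ?_, ?_⟩ <;>
      simp only [mul_assoc, hp, hq, hr, hp', hq', hr', mul_one]
  · simp only [PC, Bool.false_eq_true, if_false, if_true] at h1 h2 h3 ⊢
    obtain ⟨rfl, rfl⟩ := h1
    obtain ⟨rfl, rfl⟩ := h2
    obtain ⟨rfl, rfl⟩ := h3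
    refine ⟨_, _, _, ⟨rfl, rfl⟩, ⟨rfl, ?_⟩, ?_, ?_⟩ <;>
      simp only [mul_assoc, hp, hq, hr, hp', hq', hr', mul_one]
  · simp only [PC, Bool.false_eq_true, if_false, if_true] at h1 h2 h3 ⊢
    obtain ⟨rfl, rfl⟩ := h1
    obtain ⟨rfl, rfl⟩ := h2
    obtain ⟨rfl, rfl⟩ := h3
    refine ⟨_, _, _, ⟨rfl, rfl⟩, ⟨rfl, ?_⟩, ?_, ?_⟩ <;>
      simp only [mul_assoc, hp, hq, hr, hp', hq', hr', mul_one]
  · simp only [PC, Bool.false_eq_true, if_false, if_true] at h1 h2 h3 ⊢
    obtain ⟨rfl, rfl⟩ := h1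
    obtain ⟨rfl, rfl⟩ := h2
    obtain ⟨rfl, rfl⟩ := h3
    refine ⟨_, _, _, ⟨rfl, rfl⟩, ⟨?_, rfl⟩, ?_, ?_⟩ <;>
      simp only [mul_assoc, hp, hq, hr, hp', hq', hr', mul_one]
  · exact absurd ⟨rfl, rfl⟩ h

/-- the crossing darts of an arc -/
private theorem arc_ends {V : Type} [Fintype V] {S : Shadow V} {s : V → St} {x y : Dart V}
    (hx : isC s x) (hy : isC s y) (hne : y ≠ x) (h : Arc S s x y) (z : Dart V) (hz : isC s z)
    (hxz : Arc S s x z) : z = x ∨ z = y := by
  have h1 := partner_eq (Cr s) S s x y hx hy hne h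
  rcases (partner_spec (Cr s) S s x hx).2.2.2 z hz hxz with h2 | h2
  · exact Or.inl h2
  · exact Or.inr (h2.trans h1)

open Classical in
private theorem rich_r3_aux {V : Type} [Fintype V] [DecidableEq V] {S : Shadow V} {s : V → St}
    {u v w : V} {i j k : ZMod 4} (T : Tri S s u i v j w k)
    (hadm : ¬ ((s u).upper (i + 1) = (s v).upper (j + 1) ∧
      (s v).upper (j + 1) = (s w).upper (k + 1))) (hR : Rich S s) :
    Rich (S.conj (tri u i v j w k)) s := by
  refine Rich.of (fun c hc => ?_) hR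
  obtain ⟨p, hp⟩ : ∃ p, p = c (u, i) := ⟨_, rfl⟩
  obtain ⟨q, hq⟩ : ∃ q, q = c (u, i + 1) := ⟨_, rfl⟩
  obtain ⟨r, hr⟩ : ∃ r, r = c (v, j + 1) := ⟨_, rfl⟩
  have hp2 : c (w, k + 1) = p := by rw [hp]; exact hc.arc T.a3
  have hq2 : c (v, j) = q := by rw [hq]; exact (hc.arc T.a1).symm
  have hr2 : c (w, k) = r := by rw [hr]; exact (hc.arc T.a2).symm
  have Rp : IsRefl p := by rw [hp]; exact hc.refl _
  have Rq : IsRefl q := by rw [hq]; exact hc.refl _
  have Rr : IsRefl r := by rw [hr]; exact hc.refl _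
  have h1 : PC ((s u).upper i) p q (c (u, i + 2)) (c (u, i + 3)) := by
    rw [hp, hq]
    exact vcol_pc (hc.vert u) T.cu i (hc.refl _).sq
  have h2 : PC ((s v).upper j) q r (c (v, j + 2)) (c (v, j + 3)) := by
    rw [← hq2, hr]
    exact vcol_pc (hc.vert v) T.cv j (hc.refl _).sq
  have h3 : PC ((s w).upper k) r p (c (w, k + 2)) (c (w, k + 3)) := by
    rw [← hr2, ← hp2]
    exact vcol_pc (hc.vert w) T.cw k (hc.refl _).sq
  have hadm' : ¬ ((s u).upper i = (s v).upper j ∧ (s v).upper j = (s w).upper k) := by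
    rintro ⟨e1, e2⟩
    apply hadm
    rw [(upper_add T.cu i).1, (upper_add T.cv j).1, (upper_add T.cw k).1, e1, e2]
    exact ⟨rfl, rfl⟩
  obtain ⟨p', q', r', g1, g2, g3⟩ := r3_alg hadm' Rp.sq Rq.sq Rr.sq h1 h2 h3
  obtain ⟨Rp', Rq'⟩ := g1.refl (hc.refl _) (hc.refl _)
  obtain ⟨-, Rr'⟩ := g2.refl (hc.refl _) (hc.refl _)
  -- the three arcs
  have cu : ∀ a, isC s (u, a) := fun a => T.cu
  have cv : ∀ a, isC s (v, a) := fun a => T.cv
  have cw : ∀ a, isC s (w, a) := fun a => T.cw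
  have A1 : ∀ z, isC s z → Arc S s (u, i + 1) z → z = (u, i + 1) ∨ z = (v, j) :=
    arc_ends (cu _) (cv _) (fun h => T.uv (congrArg Prod.fst h).symm) T.a1
  have A2 : ∀ z, isC s z → Arc S s (v, j + 1) z → z = (v, j + 1) ∨ z = (w, k) :=
    arc_ends (cv _) (cw _) (fun h => T.vw (congrArg Prod.fst h).symm) T.a2
  have A3 : ∀ z, isC s z → Arc S s (w, k + 1) z → z = (w, k + 1) ∨ z = (u, i) :=
    arc_ends (cw _) (cu _) (fun h => T.wu (congrArg Prod.fst h).symm) T.a3
  let d : Dart V → GG := fun x => if Arc S s (u, i + 1) x then q' else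
    if Arc S s (v, j + 1) x then r' else if Arc S s (w, k + 1) x then p' else c x
  have dd : ∀ x, d x = if Arc S s (u, i + 1) x then q' else
    if Arc S s (v, j + 1) x then r' else if Arc S s (w, k + 1) x then p' else c x := fun _ => rfl
  have darc : ∀ x y, Arc S s x y → d x = d y := by
    intro x y hxy
    have e : ∀ z, Arc S s z x ↔ Arc S s z y := fun z =>
      ⟨fun h => h.trans _ _ _ hxy, fun h => h.trans _ _ _ (hxy.symm _ _)⟩
    rw [dd, dd, hc.arc hxy]
    simp only [e]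
  have z1 := lk17_z1
  have z2 := lk17_z2
  have z3 := lk17_z3
  have n1 : ∀ a : ZMod 4, a + 1 ≠ a := by decide
  have n2 : ∀ a : ZMod 4, a + 2 ≠ a := by decide
  have n3 : ∀ a : ZMod 4, a + 3 ≠ a := by decide
  have n21 : ∀ a : ZMod 4, a + 2 ≠ a + 1 := by decide
  have n31 : ∀ a : ZMod 4, a + 3 ≠ a + 1 := by decide
  have uv := T.uv
  have vw := T.vw
  have wu := T.wu
  -- the values of `d` at the crossings
  have dother : ∀ z, isC s z → z ≠ (u, i + 1) → z ≠ (v, j) → z ≠ (v, j + 1) → z ≠ (w, k) →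
      z ≠ (w, k + 1) → z ≠ (u, i) → d z = c z := by
    intro z hz y1 y2 y3 y4 y5 y6
    rw [dd, if_neg, if_neg, if_neg]
    · intro h
      rcases A3 z hz h with h | h
      · exact y5 h
      · exact y6 h
    · intro h
      rcases A2 z hz h with h | h
      · exact y3 h
      · exact y4 h
    · intro h
      rcases A1 z hz h with h | h
      · exact y1 h
      · exact y2 h
  have aself : ∀ x, Arc S s x x := fun x => Relation.EqvGen.refl _
  have d1 : d (u, i + 1) = q' := by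
    rw [dd, if_pos (aself _)]
  have d1' : d (v, j) = q' := by rw [← darc _ _ T.a1, d1]
  have d2 : d (v, j + 1) = r' := by
    rw [dd, if_neg, if_pos (aself _)]
    intro h
    rcases A1 _ (cv _) h with h | h
    · exact uv (congrArg Prod.fst h).symm
    · exact n1 j (congrArg Prod.snd h)
  have d2' : d (w, k) = r' := by rw [← darc _ _ T.a2, d2]
  have d3 : d (w, k + 1) = p' := by
    rw [dd, if_neg, if_neg, if_pos (aself _)]
    · intro h
      rcases A2 _ (cw _) h with h | h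
      · exact vw (congrArg Prod.fst h).symm
      · exact n1 k (congrArg Prod.snd h)
    · intro h
      rcases A1 _ (cw _) h with h | h
      · exact wu (congrArg Prod.fst h)
      · exact vw (congrArg Prod.fst h).symm
  have d3' : d (u, i) = p' := by rw [← darc _ _ T.a3, d3]
  have ne1 : ∀ {x y : V} {a b : ZMod 4}, x ≠ y → ((x, a) : Dart V) ≠ (y, b) :=
    fun h h' => h (congrArg Prod.fst h')
  have ne2 : ∀ {x y : V} {a b : ZMod 4}, a ≠ b → ((x, a) : Dart V) ≠ (y, b) :=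
    fun h h' => h (congrArg Prod.snd h')
  have eu2 : d (u, i + 2) = c (u, i + 2) := dother _ (cu _) (ne2 (n21 i)) (ne1 uv) (ne1 uv)
    (ne1 wu.symm) (ne1 wu.symm) (ne2 (n2 i))
  have eu3 : d (u, i + 3) = c (u, i + 3) := dother _ (cu _) (ne2 (n31 i)) (ne1 uv) (ne1 uv)
    (ne1 wu.symm) (ne1 wu.symm) (ne2 (n3 i))
  have ev2 : d (v, j + 2) = c (v, j + 2) := dother _ (cv _) (ne1 uv.symm) (ne2 (n2 j))
    (ne2 (n21 j)) (ne1 vw) (ne1 vw) (ne1 uv.symm)
  have ev3 : d (v, j + 3) = c (v, j + 3) := dother _ (cv _) (ne1 uv.symm) (ne2 (n3 j))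
    (ne2 (n31 j)) (ne1 vw) (ne1 vw) (ne1 uv.symm)
  have ew2 : d (w, k + 2) = c (w, k + 2) := dother _ (cw _) (ne1 wu) (ne1 vw.symm)
    (ne1 vw.symm) (ne2 (n2 k)) (ne2 (n21 k)) (ne1 wu)
  have ew3 : d (w, k + 3) = c (w, k + 3) := dother _ (cw _) (ne1 wu) (ne1 vw.symm)
    (ne1 vw.symm) (ne2 (n3 k)) (ne2 (n31 k)) (ne1 wu)
  obtain ⟨t1, t2, t3, t4, t5, t6, t7, t8, t9, t10, t11, t12, t13⟩ := tri_apply i j k uv vw wu
  have tinv := tri_invol i j k uv vw wu
  have dR : ∀ x, IsRefl (d x) := by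
    intro x
    rw [dd]
    split_ifs
    · exact Rq'
    · exact Rr'
    · exact Rp'
    · exact hc.refl _
  refine ⟨fun x => d (tri u i v j w k x), ⟨fun x => dR _, ?_, ?_⟩, ?_⟩
  · intro x
    show d (tri u i v j w k ((S.conj (tri u i v j w k)).α x)) = d (tri u i v j w k x)
    have h4 : (S.conj (tri u i v j w k)).α x =
        tri u i v j w k (S.α (tri u i v j w k x)) := by
      show (tri u i v j w k * S.α * (tri u i v j w k)⁻¹) x = _
      rw [tri_inv i j k uv vw wu]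
      rfl
    rw [h4, tinv]
    exact darc _ _ (Relation.EqvGen.symm _ _ (Relation.EqvGen.rel _ _ (Or.inl rfl)))
  · intro z
    by_cases hzu : z = u
    · subst hzu
      apply pc_vcol T.cu i (fun a => dR _)
      show PC _ (d (tri z i v j w k (z, i))) (d (tri z i v j w k (z, i + 1)))
        (d (tri z i v j w k (z, i + 2))) (d (tri z i v j w k (z, i + 3)))
      rw [t1, t2, t3, t4, ew3, ev2, d3, d1']
      exact g1
    by_cases hzv : z = v
    · subst hzv
      apply pc_vcol T.cv j (fun a => dR _)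
      show PC _ (d (tri u i z j w k (z, j))) (d (tri u i z j w k (z, j + 1)))
        (d (tri u i z j w k (z, j + 2))) (d (tri u i z j w k (z, j + 3)))
      rw [t5, t6, t7, t8, eu3, ew2, d1, d2']
      exact g2
    by_cases hzw : z = w
    · subst hzw
      apply pc_vcol T.cw k (fun a => dR _)
      show PC _ (d (tri u i v j z k (z, k))) (d (tri u i v j z k (z, k + 1)))
        (d (tri u i v j z k (z, k + 2))) (d (tri u i v j z k (z, k + 3)))
      rw [t9, t10, t11, t12, ev3, eu2, d2, d3']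
      exact g3
    have h4 : (fun a => d (tri u i v j w k (z, a))) = fun a => d (z, a) := by
      funext a
      rw [t13 (z, a) hzu hzv hzw]
    show VCol (s z) (fun a => d (tri u i v j w k (z, a)))
    rw [h4]
    by_cases hz : (s z).isX = true
    · have h5 : (fun a => d (z, a)) = fun a => c (z, a) := by
        funext a
        exact dother (z, a) hz (ne1 hzu) (ne1 hzv) (ne1 hzv) (ne1 hzw) (ne1 hzw) (ne1 hzu)
      rw [h5]
      exact hc.vert z
    · intro a
      rw [if_neg (fun h => hz h.1)]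
      exact (darc (z, a) (z, (s z).mate a)
        (Relation.EqvGen.rel _ _ (Or.inr ⟨hz, rfl⟩))).symm
  · intro U hU
    have hU' : ∀ x, im (d x) ≤ U := by
      intro x
      have h4 : im (d (tri u i v j w k (tri u i v j w k x))) ≤ U := hU (tri u i v j w k x)
      rw [tinv] at h4
      exact h4
    have Uu2 : im (c (u, i + 2)) ≤ U := by rw [← eu2]; exact hU' _
    have Uu3 : im (c (u, i + 3)) ≤ U := by rw [← eu3]; exact hU' _
    have Uv2 : im (c (v, j + 2)) ≤ U := by rw [← ev2]; exact hU' _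
    have Uv3 : im (c (v, j + 3)) ≤ U := by rw [← ev3]; exact hU' _
    obtain ⟨Up, Uq⟩ := h1.back Rp Rq Uu2 Uu3
    obtain ⟨-, Ur⟩ := h2.back Rq Rr Uv2 Uv3
    intro x
    by_cases x1 : Arc S s (u, i + 1) x
    · rw [← hc.arc x1, ← hq]
      exact Uq
    by_cases x2 : Arc S s (v, j + 1) x
    · rw [← hc.arc x2, ← hr]
      exact Ur
    by_cases x3 : Arc S s (w, k + 1) x
    · rw [← hc.arc x3, hp2]
      exact Up
    have h4 := hU' x
    rw [dd, if_neg x1, if_neg x2, if_neg x3] at h4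
    exact h4

theorem rich_r3 {V : Type} [Fintype V] [DecidableEq V] {S : Shadow V} {s : V → St}
    {u v w : V} {i j k : ZMod 4} (T : Tri S s u i v j w k)
    (hadm : ¬ ((s u).upper (i + 1) = (s v).upper (j + 1) ∧
      (s v).upper (j + 1) = (s w).upper (k + 1))) :
    Rich S s ↔ Rich (S.conj (tri u i v j w k)) s := by
  refine ⟨rich_r3_aux T hadm, fun h => ?_⟩
  have h1 : tri u (i + 2) v (j + 2) w (k + 2) = tri u i v j w k := by
    apply Equiv.ext
    obtain ⟨t1, t2, t3, t4, t5, t6, t7, t8, t9, t10, t11, t12, t13⟩ :=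
      tri_apply i j k T.uv T.vw T.wu
    obtain ⟨r1, r2, r3, r4, r5, r6, r7, r8, r9, r10, r11, r12, r13⟩ :=
      tri_apply (i + 2) (j + 2) (k + 2) T.uv T.vw T.wu
    have z : ∀ a : ZMod 4, a + 2 + 1 = a + 3 ∧ a + 2 + 2 = a ∧ a + 2 + 3 = a + 1 := by decide
    simp only [z] at r1 r2 r3 r4 r5 r6 r7 r8 r9 r10 r11 r12
    apply lk17_ind u v w i j k
    · rw [t1, r3]
    · rw [t2, r4]
    · rw [t3, r1]
    · rw [t4, r2]
    · rw [t5, r7]
    · rw [t6, r8]
    · rw [t7, r5]
    · rw [t8, r6]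
    · rw [t9, r11]
    · rw [t10, r12]
    · rw [t11, r9]
    · rw [t12, r10]
    · intro x y1 y2 y3
      rw [t13 x y1 y2 y3, r13 x y1 y2 y3]
  have h2 := rich_r3_aux T.conj (fun h => hadm ?_) h
  · rw [h1, T.conj_conj] at h2
    exact h2
  · have z : ∀ a : ZMod 4, a + 2 + 1 = a + 1 + 2 := by decide
    rw [z, z, z, (upper_add T.cu (i + 1)).2.1, (upper_add T.cv (j + 1)).2.1,
      (upper_add T.cw (k + 1)).2.1] at h
    exact h

end Pool.Agent.Helper65.LK
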