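import Pool.Agent.Helper93.LKC.ColLin

/-!
# CB-9. Colourings of algebraic tangles with prescribed colours at the ends

`exists_linQ`: every `E` has `P, Q > 0` with `LinQ E P Q` (induction); if `E = v A B` one can take `Q ≥ 2`, if `E = h A B`
one can take `P ≥ 2`.
`reach_h`, induction on `E`.  `leaf`: `k = 0`, a constant colouring (`tcol_const`), the given `Q i = 2`.  `v A B`: `hc = 1`; `k = 0`:
constant colouring; `k = 1`: `Q i = Q` (the number from `linQ_v`); the family `r` of `RelQ Q (u 0) (u 1)`, `LinQ` with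
`t = 0`, `v = 0`, `h = - 1 / Q`, `m = -1`: the left ends have the colour `r 0 = u 0`, the right ends
`r (1 / Q) = u 1`.  `h A B`: `k = k₁ + k₂`, `k₁ ≤ hc A`, `k₂ ≤ hc B`, `Q i = if i < k₁ then Q₁ i else Q₂ (i - k₁)`; colour `A` with `u` and `B` with
`fun i => u (k₁ + i)`; `TCol.hsum` (the state is constant: `Sum.elim (ov _) (ov _) = ov _` by `funext` and cases); `IsRefl (u k₁)` follows from the
end colour (`TCol.refl`).  `∃ x, c x = u i`: for `i ≤ k₁` from `A`, otherwise from `B` (`i - k₁`).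
`reach_v` is the same with top and bottom: `h A B` is the block: `LinQ` with `h = 0`, `v = - 1 / P`,
`Fam` period: ports 1, 0 have the colour `r 0`, ports 2, 3 the colour `r (1 / P)`.
-/

namespace Pool.Agent.Helper65.LK

private theorem cr_ov (V W : Type) : (Sum.elim (ov V) (ov W) : V ⊕ W → St) = ov (V ⊕ W) := by
  funext x
  rcases x with v | w <;> rfl

private theorem cr_linQ (E : Ex) : ∃ P Q : ℕ, 0 < P ∧ 0 < Q ∧ LinQ E P Q := by
  induction E with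
  | leaf => exact ⟨1, 1, one_pos, one_pos, linQ_leaf⟩
  | h A B ihA ihB =>
    obtain ⟨P₁, Q₁, hP₁, hQ₁, h₁⟩ := ihA
    obtain ⟨P₂, Q₂, hP₂, hQ₂, h₂⟩ := ihB
    obtain ⟨P, Q, hP, hQ, h⟩ := linQ_h hP₁ hQ₁ hP₂ hQ₂ h₁ h₂
    exact ⟨P, Q, by omega, hQ, h⟩
  | v A B ihA ihB =>
    obtain ⟨P₁, Q₁, hP₁, hQ₁, h₁⟩ := ihA
    obtain ⟨P₂, Q₂, hP₂, hQ₂, h₂⟩ := ihB
    obtain ⟨P, Q, hP, hQ, h⟩ := linQ_v hP₁ hQ₁ hP₂ hQ₂ h₁ h₂
    exact ⟨P, Q, hP, by omega, h⟩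

private theorem cr_linQ_v (A B : Ex) : ∃ P Q : ℕ, 0 < P ∧ 2 ≤ Q ∧ LinQ (Ex.v A B) P Q := by
  obtain ⟨P₁, Q₁, hP₁, hQ₁, h₁⟩ := cr_linQ A
  obtain ⟨P₂, Q₂, hP₂, hQ₂, h₂⟩ := cr_linQ B
  exact linQ_v hP₁ hQ₁ hP₂ hQ₂ h₁ h₂

private theorem cr_linQ_h (A B : Ex) : ∃ P Q : ℕ, 2 ≤ P ∧ 0 < Q ∧ LinQ (Ex.h A B) P Q := by
  obtain ⟨P₁, Q₁, hP₁, hQ₁, h₁⟩ := cr_linQ A
  obtain ⟨P₂, Q₂, hP₂, hQ₂, h₂⟩ := cr_linQ B
  exact linQ_h hP₁ hQ₁ hP₂ hQ₂ h₁ h₂

/-- the constant colouring -/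
private theorem cr_const (E : Ex) {a : GG} (ha : IsRefl a) :
    TCol E.tg (ov E.Lv) (fun _ => a) := tcol_const _ _ ha

theorem reach_h (E : Ex) (k : ℕ) (hk : k ≤ E.hc) : ∃ Q : ℕ → ℕ, (∀ i, 2 ≤ Q i) ∧
    ∀ u : ℕ → GG, IsRefl (u 0) → (∀ i < k, RelQ (Q i) (u i) (u (i + 1))) →
      ∃ c, TCol E.tg (ov E.Lv) c ∧ c (E.tg.port 1) = u 0 ∧ c (E.tg.port 2) = u 0 ∧
        c (E.tg.port 0) = u k ∧ c (E.tg.port 3) = u k ∧ ∀ i ≤ k, ∃ x, c x = u i := by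
  induction E generalizing k with
  | leaf =>
    have hk0 : k = 0 := Nat.le_zero.1 hk
    subst hk0
    refine ⟨fun _ => 2, fun _ => le_rfl, fun u h0 _ => ?_⟩
    exact ⟨fun _ => u 0, cr_const _ h0, rfl, rfl, rfl, rfl, fun i hi => by
      rw [Nat.le_zero.1 hi]
      exact ⟨Ex.leaf.tg.port 0, rfl⟩⟩
  | v A B ihA ihB =>
    obtain ⟨P, Q, hP, hQ, hl⟩ := cr_linQ_v A B
    refine ⟨fun _ => Q, fun _ => hQ, fun u h0 hr => ?_⟩
    have hk1 : k ≤ 1 := hk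
    rcases Nat.le_one_iff_eq_zero_or_eq_one.1 hk1 with rfl | rfl
    · exact ⟨fun _ => u 0, cr_const _ h0, rfl, rfl, rfl, rfl, fun i hi => by
        rw [Nat.le_zero.1 hi]
        exact ⟨(Ex.v A B).tg.port 0, rfl⟩⟩
    · obtain ⟨r, hf, hr0, hr1⟩ := hr 0 one_pos
      have hQ0 : (Q : ℝ) ≠ 0 := by
        have : 0 < Q := by omega
        exact_mod_cast this.ne'
      obtain ⟨c, hc, c1, c0, c2, c3⟩ := hl r hf 0 (-(1 / Q)) 0 (-1) (by
        push_cast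
        field_simp
        ring)
      have e0 : c ((Ex.v A B).tg.port 1) = u 0 := by rw [c1, hr0]
      have e1 : c ((Ex.v A B).tg.port 2) = u 0 := by rw [c2, sub_zero, hr0]
      have e2 : c ((Ex.v A B).tg.port 0) = u 1 := by rw [c0, zero_sub, neg_neg, hr1]
      have e3 : c ((Ex.v A B).tg.port 3) = u 1 := by
        rw [c3, zero_sub, neg_neg, sub_zero, hr1]
      refine ⟨c, hc, e0, e1, e2, e3, fun i hi => ?_⟩
      rcases Nat.le_one_iff_eq_zero_or_eq_one.1 hi with rfl | rfl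
      · exact ⟨_, e0⟩
      · exact ⟨_, e2⟩
  | h A B ihA ihB =>
    have hk' : k ≤ A.hc + B.hc := hk
    obtain ⟨k₁, k₂, hk₁, hk₂, rfl⟩ : ∃ k₁ k₂, k₁ ≤ A.hc ∧ k₂ ≤ B.hc ∧ k = k₁ + k₂ :=
      ⟨min k A.hc, k - min k A.hc, min_le_right _ _, by omega, by omega⟩
    obtain ⟨Q₁, hQ₁, H₁⟩ := ihA k₁ hk₁
    obtain ⟨Q₂, hQ₂, H₂⟩ := ihB k₂ hk₂
    refine ⟨fun i => if i < k₁ then Q₁ i else Q₂ (i - k₁), fun i => ?_, fun u h0 hr => ?_⟩
    · show 2 ≤ (if i < k₁ then Q₁ i else Q₂ (i - k₁))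
      split_ifs
      · exact hQ₁ i
      · exact hQ₂ _
    · obtain ⟨c₁, hc₁, a1, a2, a0, a3, ha⟩ := H₁ u h0 (fun i hi => by
        have h := hr i (by omega)
        simp only [if_pos hi] at h
        exact h)
      have hk1 : IsRefl (u (k₁ + 0)) := by
        have h := hc₁.refl (A.tg.port 0)
        rw [a0] at h
        exact h
      obtain ⟨c₂, hc₂, b1, b2, b0, b3, hb⟩ := H₂ (fun i => u (k₁ + i)) hk1 (fun i hi => by
        have h := hr (k₁ + i) (by omega)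
        have h1 : ¬ (k₁ + i < k₁) := by omega
        have h2 : k₁ + i - k₁ = i := by omega
        simp only [if_neg h1, h2] at h
        exact h)
      have hc : TCol (hsum A.tg B.tg) (Sum.elim (ov A.Lv) (ov B.Lv)) (csum c₁ c₂) :=
        TCol.hsum hc₁ hc₂ (by rw [a0, b1]; rfl) (by rw [a3, b2]; rfl)
      rw [cr_ov] at hc
      refine ⟨csum c₁ c₂, hc, a1, a2, b0, b3, fun i hi => ?_⟩
      by_cases hik : i ≤ k₁
      · obtain ⟨x, hx⟩ := ha i hik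
        exact ⟨dl x, hx⟩
      · obtain ⟨x, hx⟩ := hb (i - k₁) (by omega)
        have h2 : k₁ + (i - k₁) = i := by omega
        simp only [h2] at hx
        exact ⟨dr x, hx⟩

theorem reach_v (E : Ex) (k : ℕ) (hk : k ≤ E.vc) : ∃ Q : ℕ → ℕ, (∀ i, 2 ≤ Q i) ∧
    ∀ u : ℕ → GG, IsRefl (u 0) → (∀ i < k, RelQ (Q i) (u i) (u (i + 1))) →
      ∃ c, TCol E.tg (ov E.Lv) c ∧ c (E.tg.port 0) = u 0 ∧ c (E.tg.port 1) = u 0 ∧
        c (E.tg.port 2) = u k ∧ c (E.tg.port 3) = u k ∧ ∀ i ≤ k, ∃ x, c x = u i := by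
  induction E generalizing k with
  | leaf =>
    have hk0 : k = 0 := Nat.le_zero.1 hk
    subst hk0
    refine ⟨fun _ => 2, fun _ => le_rfl, fun u h0 _ => ?_⟩
    exact ⟨fun _ => u 0, cr_const _ h0, rfl, rfl, rfl, rfl, fun i hi => by
      rw [Nat.le_zero.1 hi]
      exact ⟨Ex.leaf.tg.port 0, rfl⟩⟩
  | h A B ihA ihB =>
    obtain ⟨P, Q, hP, hQ, hl⟩ := cr_linQ_h A B
    refine ⟨fun _ => P, fun _ => hP, fun u h0 hr => ?_⟩
    have hk1 : k ≤ 1 := hk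
    rcases Nat.le_one_iff_eq_zero_or_eq_one.1 hk1 with rfl | rfl
    · exact ⟨fun _ => u 0, cr_const _ h0, rfl, rfl, rfl, rfl, fun i hi => by
        rw [Nat.le_zero.1 hi]
        exact ⟨(Ex.h A B).tg.port 0, rfl⟩⟩
    · obtain ⟨r, hf, hr0, hr1⟩ := hr 0 one_pos
      have hP0 : (P : ℝ) ≠ 0 := by
        have : 0 < P := by omega
        exact_mod_cast this.ne'
      obtain ⟨c, hc, c1, c0, c2, c3⟩ := hl r hf 0 0 (-(1 / P)) (-1) (by
        push_cast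
        field_simp
        ring)
      have e0 : c ((Ex.h A B).tg.port 0) = u 0 := by rw [c0, sub_zero, hr0]
      have e1 : c ((Ex.h A B).tg.port 1) = u 0 := by rw [c1, hr0]
      have e2 : c ((Ex.h A B).tg.port 2) = u 1 := by rw [c2, zero_sub, neg_neg, hr1]
      have e3 : c ((Ex.h A B).tg.port 3) = u 1 := by
        rw [c3, sub_zero, zero_sub, neg_neg, hr1]
      refine ⟨c, hc, e0, e1, e2, e3, fun i hi => ?_⟩
      rcases Nat.le_one_iff_eq_zero_or_eq_one.1 hi with rfl | rfl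
      · exact ⟨_, e0⟩
      · exact ⟨_, e2⟩
  | v A B ihA ihB =>
    have hk' : k ≤ A.vc + B.vc := hk
    obtain ⟨k₁, k₂, hk₁, hk₂, rfl⟩ : ∃ k₁ k₂, k₁ ≤ A.vc ∧ k₂ ≤ B.vc ∧ k = k₁ + k₂ :=
      ⟨min k A.vc, k - min k A.vc, min_le_right _ _, by omega, by omega⟩
    obtain ⟨Q₁, hQ₁, H₁⟩ := ihA k₁ hk₁
    obtain ⟨Q₂, hQ₂, H₂⟩ := ihB k₂ hk₂
    refine ⟨fun i => if i < k₁ then Q₁ i else Q₂ (i - k₁), fun i => ?_, fun u h0 hr => ?_⟩
    · show 2 ≤ (if i < k₁ then Q₁ i else Q₂ (i - k₁))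
      split_ifs
      · exact hQ₁ i
      · exact hQ₂ _
    · obtain ⟨c₁, hc₁, a0, a1, a2, a3, ha⟩ := H₁ u h0 (fun i hi => by
        have h := hr i (by omega)
        simp only [if_pos hi] at h
        exact h)
      have hk1 : IsRefl (u (k₁ + 0)) := by
        have h := hc₁.refl (A.tg.port 2)
        rw [a2] at h
        exact h
      obtain ⟨c₂, hc₂, b0, b1, b2, b3, hb⟩ := H₂ (fun i => u (k₁ + i)) hk1 (fun i hi => by
        have h := hr (k₁ + i) (by omega)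
        have h1 : ¬ (k₁ + i < k₁) := by omega
        have h2 : k₁ + i - k₁ = i := by omega
        simp only [if_neg h1, h2] at h
        exact h)
      have hc : TCol (vsum A.tg B.tg) (Sum.elim (ov A.Lv) (ov B.Lv)) (csum c₁ c₂) :=
        TCol.vsum hc₁ hc₂ (by rw [a2, b1]; rfl) (by rw [a3, b0]; rfl)
      rw [cr_ov] at hc
      refine ⟨csum c₁ c₂, hc, a0, a1, b2, b3, fun i hi => ?_⟩
      by_cases hik : i ≤ k₁
      · obtain ⟨x, hx⟩ := ha i hik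
        exact ⟨dl x, hx⟩
      · obtain ⟨x, hx⟩ := hb (i - k₁) (by omega)
        have h2 : k₁ + (i - k₁) = i := by omega
        simp only [h2] at hx
        exact ⟨dr x, hx⟩

end Pool.Agent.Helper65.LK
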