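import Pool.Agent.Helper93.LKC.Col

/-!
# CB-1. Glueing colourings of tangles

`csum c₁ c₂` is `c₁` on the darts of the first and `c₂` on the darts of the second summand.  `refl`, `vert`: case
distinction.  `link`: unfold `hsum`, `vsum`, `glueα`; for a dart `(inl v, j)` with `A.link (v, j) = inr i` use `port_link`
(`A.port i = (v, j)`) and the hypotheses (all four ports `i` one by one, `i` is in `ZMod 4`: `1 - 0 = 1`, `1 - 3 = 2`,
`3 - 2 = 1`, `3 - 3 = 0`, `1 - 2 = 3`).
-/

namespace Pool.Agent.Helper65.LK

variable {V W : Type}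

/-- two colourings side by side -/
def csum (c₁ : Dart V → GG) (c₂ : Dart W → GG) (x : Dart (V ⊕ W)) : GG :=
  match x.1 with
  | Sum.inl v => c₁ (v, x.2)
  | Sum.inr w => c₂ (w, x.2)

private theorem cg_cases : ∀ i : ZMod 4, i = 0 ∨ i = 1 ∨ i = 2 ∨ i = 3 := by decide

private theorem csum_refl {c₁ : Dart V → GG} {c₂ : Dart W → GG} (h₁ : ∀ x, IsRefl (c₁ x))
    (h₂ : ∀ x, IsRefl (c₂ x)) (x : Dart (V ⊕ W)) : IsRefl (csum c₁ c₂ x) := by
  obtain ⟨v | w, j⟩ := x
  · exact h₁ _
  · exact h₂ _

private theorem csum_vert {s₁ : V → St} {s₂ : W → St} {c₁ : Dart V → GG} {c₂ : Dart W → GG}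
    (h₁ : ∀ v, VCol (s₁ v) (fun i => c₁ (v, i))) (h₂ : ∀ v, VCol (s₂ v) (fun i => c₂ (v, i)))
    (v : V ⊕ W) : VCol (Sum.elim s₁ s₂ v) (fun i => csum c₁ c₂ (v, i)) := by
  obtain v | w := v
  · exact h₁ v
  · exact h₂ w

theorem TCol.hsum {A : Tangle V} {B : Tangle W} {s₁ : V → St} {s₂ : W → St}
    {c₁ : Dart V → GG} {c₂ : Dart W → GG} (h₁ : TCol A s₁ c₁) (h₂ : TCol B s₂ c₂)
    (ht : c₁ (A.port 0) = c₂ (B.port 1)) (hb : c₁ (A.port 3) = c₂ (B.port 2)) :
    TCol (hsum A B) (Sum.elim s₁ s₂) (csum c₁ c₂) := by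
  refine ⟨csum_refl h₁.refl h₂.refl, ?_, csum_vert h₁.vert h₂.vert⟩
  rintro ⟨v | w, j⟩ y h
  · cases hx : A.link (v, j) with
    | inl z =>
      simp only [LK.hsum, hx, Sum.inl.injEq] at h
      subst h
      exact h₁.link _ _ hx
    | inr i =>
      have hp := A.port_link _ _ hx
      rcases cg_cases i with rfl | rfl | rfl | rfl
      · have h3 : y = dr (B.port 1) := by
          simp only [LK.hsum, hx] at h
          exact (Sum.inl.inj h).symm
        subst h3
        show c₁ (v, j) = c₂ (B.port 1)
        rw [← hp, ht]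
      · simp only [LK.hsum, hx] at h
        cases h
      · simp only [LK.hsum, hx] at h
        cases h
      · have h3 : y = dr (B.port 2) := by
          simp only [LK.hsum, hx] at h
          exact (Sum.inl.inj h).symm
        subst h3
        show c₁ (v, j) = c₂ (B.port 2)
        rw [← hp, hb]
  · cases hx : B.link (w, j) with
    | inl z =>
      simp only [LK.hsum, hx, Sum.inl.injEq] at h
      subst h
      exact h₂.link _ _ hx
    | inr i =>
      have hp := B.port_link _ _ hx
      rcases cg_cases i with rfl | rfl | rfl | rfl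
      · simp only [LK.hsum, hx] at h
        cases h
      · have h3 : y = dl (A.port 0) := by
          simp only [LK.hsum, hx] at h
          exact (Sum.inl.inj h).symm
        subst h3
        show c₂ (w, j) = c₁ (A.port 0)
        rw [← hp, ht]
      · have h3 : y = dl (A.port 3) := by
          simp only [LK.hsum, hx] at h
          exact (Sum.inl.inj h).symm
        subst h3
        show c₂ (w, j) = c₁ (A.port 3)
        rw [← hp, hb]
      · simp only [LK.hsum, hx] at h
        cases h

theorem TCol.vsum {A : Tangle V} {B : Tangle W} {s₁ : V → St} {s₂ : W → St}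
    {c₁ : Dart V → GG} {c₂ : Dart W → GG} (h₁ : TCol A s₁ c₁) (h₂ : TCol B s₂ c₂)
    (hl : c₁ (A.port 2) = c₂ (B.port 1)) (hr : c₁ (A.port 3) = c₂ (B.port 0)) :
    TCol (vsum A B) (Sum.elim s₁ s₂) (csum c₁ c₂) := by
  refine ⟨csum_refl h₁.refl h₂.refl, ?_, csum_vert h₁.vert h₂.vert⟩
  rintro ⟨v | w, j⟩ y h
  · cases hx : A.link (v, j) with
    | inl z =>
      simp only [LK.vsum, hx, Sum.inl.injEq] at h
      subst h
      exact h₁.link _ _ hx
    | inr i =>
      have hp := A.port_link _ _ hx
      rcases cg_cases i with rfl | rfl | rfl | rfl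
      · simp only [LK.vsum, hx] at h
        cases h
      · simp only [LK.vsum, hx] at h
        cases h
      · have h3 : y = dr (B.port 1) := by
          simp only [LK.vsum, hx] at h
          exact (Sum.inl.inj h).symm
        subst h3
        show c₁ (v, j) = c₂ (B.port 1)
        rw [← hp, hl]
      · have h3 : y = dr (B.port 0) := by
          simp only [LK.vsum, hx] at h
          exact (Sum.inl.inj h).symm
        subst h3
        show c₁ (v, j) = c₂ (B.port 0)
        rw [← hp, hr]
  · cases hx : B.link (w, j) with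
    | inl z =>
      simp only [LK.vsum, hx, Sum.inl.injEq] at h
      subst h
      exact h₂.link _ _ hx
    | inr i =>
      have hp := B.port_link _ _ hx
      rcases cg_cases i with rfl | rfl | rfl | rfl
      · have h3 : y = dl (A.port 3) := by
          simp only [LK.vsum, hx] at h
          exact (Sum.inl.inj h).symm
        subst h3
        show c₂ (w, j) = c₁ (A.port 3)
        rw [← hp, hr]
      · have h3 : y = dl (A.port 2) := by
          simp only [LK.vsum, hx] at h
          exact (Sum.inl.inj h).symm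
        subst h3
        show c₂ (w, j) = c₁ (A.port 2)
        rw [← hp, hl]
      · simp only [LK.vsum, hx] at h
        cases h
      · simp only [LK.vsum, hx] at h
        cases h

theorem TCol.glue {A : Tangle V} {B : Tangle W} {s₁ : V → St} {s₂ : W → St}
    {c₁ : Dart V → GG} {c₂ : Dart W → GG} (h₁ : TCol A s₁ c₁) (h₂ : TCol B s₂ c₂)
    (h0 : c₁ (A.port 0) = c₂ (B.port 1)) (h1 : c₁ (A.port 1) = c₂ (B.port 0))
    (h2 : c₁ (A.port 2) = c₂ (B.port 3)) (h3 : c₁ (A.port 3) = c₂ (B.port 2)) :
    Col (glue A B) (Sum.elim s₁ s₂) (csum c₁ c₂) := by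
  refine ⟨csum_refl h₁.refl h₂.refl, ?_, csum_vert h₁.vert h₂.vert⟩
  rintro ⟨v | w, j⟩
  · show csum c₁ c₂ (glueα A B (Sum.inl v, j)) = c₁ (v, j)
    cases hx : A.link (v, j) with
    | inl z =>
      simp only [glueα, hx]
      exact (h₁.link _ _ hx).symm
    | inr i =>
      have hp := A.port_link _ _ hx
      simp only [glueα, hx]
      show c₂ (B.port (1 - i)) = c₁ (v, j)
      rw [← hp]
      rcases cg_cases i with rfl | rfl | rfl | rfl
      · exact h0.symm
      · exact h1.symm
      · exact h2.symm
      · exact h3.symm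
  · show csum c₁ c₂ (glueα A B (Sum.inr w, j)) = c₂ (w, j)
    cases hx : B.link (w, j) with
    | inl z =>
      simp only [glueα, hx]
      exact (h₂.link _ _ hx).symm
    | inr i =>
      have hp := B.port_link _ _ hx
      simp only [glueα, hx]
      show c₁ (A.port (1 - i)) = c₂ (w, j)
      rw [← hp]
      rcases cg_cases i with rfl | rfl | rfl | rfl
      · exact h1
      · exact h0
      · exact h3
      · exact h2

end Pool.Agent.Helper65.LK
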